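import Pool.Agent.TH158.FM.Rng
import Pool.Agent.TH692.FM2.Norm3
import Pool.Agent.TH692.FM2.Range2

set_option autoImplicit false

/-!
# MP_3d0d30_nt: the fourth moment for every `T ≥ 1000`

`M_k(T) = ∫_0^T |ζ(1/2 + it)|^{2k} dt`. For `k = 2` the inequality of Q2 holds for EVERY `T ≥ 1000`
(no upper bound on `T`), with the constant `4/5` in place of `1`, and with the constant `0.4799`
for `T ≥ 10^8`.

Proof: the fourth moment with an explicit constant (Plancherel's theorem, the functional equation,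
Hilbert's inequality).
-/

namespace Pool.Agent.Results.MP_3d0d30_nt.FourthMomentAllT

open Complex Pool.Agent.TH158.FM

/-- `M_k(T) = ∫_0^T |ζ(1/2 + it)|^{2k} dt` -/
noncomputable def M (k T : ℝ) : ℝ := ∫ t in (0:ℝ)..T, ‖riemannZeta (1 / 2 + t * I)‖ ^ (2 * k)

lemma M_two (T : ℝ) : M 2 T = ∫ t in (0:ℝ)..T, ‖riemannZeta (pt (1 / 2) t)‖ ^ 4 := by
  unfold M
  congr 1
  funext t
  rw [pt_half, ← Real.rpow_natCast]
  norm_num

/-- Q2 for `k = 2` and every `T ≥ 1000`, with constants `4/5` and (for `T ≥ 10^8`) `0.4799` -/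
theorem result (T : ℝ) (hT : 1000 ≤ T) :
    M 2 T ≤ 4 / 5 * (T * Real.log T ^ ((2 : ℝ) ^ 2)) ∧
    (10 ^ 8 ≤ T → M 2 T ≤ 4799 / 10000 * (T * Real.log T ^ ((2 : ℝ) ^ 2))) := by
  have hN : S_NORM2 := Pool.Agent.TH692.FM2.norm2_all
    (Pool.Agent.TH615.J4553.hil_all Pool.Agent.TH158.FM.hil0_all)
    (Pool.Agent.TH158.FM.lap_all Pool.Agent.TH360.J4554.div_all)
  have e : Real.log T ^ ((2 : ℝ) ^ 2) = Real.log T ^ 4 := by
    rw [← Real.rpow_natCast]
    norm_num
  rw [M_two, e]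
  exact ⟨fourth_all T hT, fun h => fourth2_all hN T h⟩

end Pool.Agent.Results.MP_3d0d30_nt.FourthMomentAllT
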