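import Pool.Agent.R356.RG3
import Pool.Agent.W188.Ray.A4
import Pool.Agent.W22.EH.EX
import Pool.Agent.W903.EH.BK
import Pool.Agent.W347.EH.KT

/-!
# MP_3d0d30_nt: ranges of `T` in which Q2 holds, and the growth of `ζ(1/2 + it)`

`M_k(T) = ∫_0^T |ζ(1/2 + it)|^{2k} dt`; Q2 is the inequality `M_k(T) ≤ T (log T)^{k²}`.

(1) For every `θ < 3` the inequality of Q2 holds for all real `k ≥ k₀(θ)` and all `T` with
`1000 < T ≤ k^{θ k}`.

(2) For all real `s ≥ 1` and `a ≥ 0` the bounds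
`|ζ(1/2 + it)| ≤ exp ((a + ε) log t / (log log t)^{s-1})` (all `ε > 0`, all large `t`) hold if and
only if the inequality of Q2 holds, for every `θ < 1 / (2a)`, for all `k ≥ k₀(θ)` and
`1000 < T ≤ exp (θ k (log k)^s)`; here the `k` may be real numbers or natural numbers.

(3) The Lindelöf hypothesis holds if and only if for every `θ` the inequality of Q2 holds for all
natural numbers `k ≥ k₀(θ)` and `1000 < T ≤ k^{θ k}`.

(4) `|ζ(1/2 + it)| ≤ exp (A (log t log log t)^{1/2})` for some `A` and all large `t` if and only if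
for some `c > 0` the inequality of Q2 holds for all `k ≥ k₀` and `1000 < T ≤ exp (c k² log k)`.
-/

set_option autoImplicit false

namespace Pool.Agent.Results.MP_3d0d30_nt.RangesAndGrowth

open Complex Filter Pool.Agent.R356.RG

/-- `M_k(T) = ∫_0^T |ζ(1/2 + it)|^{2k} dt` -/
noncomputable def M (k T : ℝ) : ℝ := ∫ t in (0:ℝ)..T, ‖riemannZeta (1 / 2 + t * I)‖ ^ (2 * k)

/-- `|ζ(1/2 + it)| ≤ exp ((a + ε) log t / (log log t)^{s-1})` for every `ε > 0` and all large `t`.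
For `s = 1` the bound is `t^{a + ε}`. -/
def Growth (s a : ℝ) : Prop := ∀ ε : ℝ, 0 < ε → ∃ t₀ : ℝ, ∀ t : ℝ, t₀ ≤ t →
  ‖riemannZeta (1 / 2 + t * I)‖ ≤
    Real.exp ((a + ε) * (Real.log t / Real.log (Real.log t) ^ (s - 1)))

/-- The inequality of Q2, strict, for all large real `k` and `1000 < T ≤ exp (θ k (log k)^s)`. -/
def RealRange (s θ : ℝ) : Prop := ∃ k₀ : ℝ, ∀ k : ℝ, k₀ ≤ k → ∀ T : ℝ, 1000 < T →
  T ≤ Real.exp (θ * k * Real.log k ^ s) → M k T < T * Real.log T ^ (k ^ 2)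

/-- The inequality of Q2 for all large natural numbers `k` and
`1000 < T ≤ exp (θ k (log k)^s)`. -/
def NatRange (s θ : ℝ) : Prop := ∃ k₀ : ℕ, ∀ k : ℕ, k₀ ≤ k → ∀ T : ℝ, 1000 < T →
  T ≤ Real.exp (θ * k * Real.log k ^ s) → M k T ≤ T * Real.log T ^ ((k : ℝ) ^ 2)

/-- The Lindelöf hypothesis. -/
def Lindelof : Prop := ∀ ε : ℝ, 0 < ε →
  (fun t : ℝ => riemannZeta (1 / 2 + t * I)) =O[atTop] fun t : ℝ => t ^ ε

/-! ### the zeta function on the critical line -/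

/-- the absolute value on the critical line -/
noncomputable def Z (t : ℝ) : ℝ := ‖riemannZeta (1 / 2 + t * I)‖

lemma Z_cont : Continuous Z := by
  unfold Z
  refine Continuous.norm (continuous_iff_continuousAt.2 fun t => ?_)
  have h : (1 / 2 + (t : ℂ) * I) ≠ 1 := by
    intro h
    have := congrArg Complex.re h
    simp at this
  exact ContinuousAt.comp (f := fun t : ℝ => (1 / 2 + (t : ℂ) * I)) (g := riemannZeta)
    (differentiableAt_riemannZeta h).continuousAt (by fun_prop)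

lemma Z_nonneg (t : ℝ) : 0 ≤ Z t := norm_nonneg _

lemma Z_lip (t t' T : ℝ) (hT : 1000 ≤ T) (h1 : T / 2 ≤ t) (h2 : t ≤ 2 * T) (h3 : T / 2 ≤ t')
    (h4 : t' ≤ 2 * T) : Z t ≤ Z t' + 100 * T * |t - t'| := by
  have h := Pool.Agent.W188.Ray.zeta_lip hT h1 h2 h3 h4
  have h5 := norm_sub_norm_le (riemannZeta (Pool.Agent.W188.Ray.cp t))
    (riemannZeta (Pool.Agent.W188.Ray.cp t'))
  unfold Pool.Agent.W188.Ray.cp at h h5
  unfold Z
  linarith

lemma growth_weyl : Growth 1 (1 / 6) := by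
  intro ε hε
  obtain ⟨T0, hT0⟩ := Pool.Agent.W22.EH.ex (Pool.Agent.W903.EH.bk Pool.Agent.W347.EH.kt)
    Pool.Agent.W903.EH.b1 ε hε
  refine ⟨max T0 1, fun t ht => ?_⟩
  have ht0 : 0 < t := by linarith [(le_max_right T0 1).trans ht]
  refine (hT0 t ((le_max_left _ _).trans ht)).1.trans (le_of_eq ?_)
  rw [sub_self, Real.rpow_zero, div_one, Real.rpow_def_of_pos ht0, mul_comm]

lemma growth_to_real {s a : ℝ} (hs : 1 ≤ s) (ha : 0 ≤ a) (hG : Growth s a) (θ : ℝ) (hθ : 0 < θ)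
    (hθa : 2 * a * θ < 1) : RealRange s θ := by
  obtain ⟨k₀, hk₀⟩ := dirA Z Z_cont Z_nonneg hs ha hG hθ hθa
  refine ⟨k₀, fun k hk T hT h => hk₀ k hk T hT ?_⟩
  rwa [Real.log_le_iff_le_exp (by linarith)]

lemma real_to_nat {s θ : ℝ} (h : RealRange s θ) : NatRange s θ := by
  obtain ⟨k₀, hk₀⟩ := h
  refine ⟨⌈k₀⌉₊, fun k hk T hT h => (hk₀ k ?_ T hT h).le⟩
  exact (Nat.le_ceil _).trans (by exact_mod_cast hk)

lemma nat_to_growth {s a : ℝ} (hs : 1 ≤ s) (ha : 0 ≤ a)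
    (h : ∀ θ : ℝ, 0 < θ → 2 * a * θ < 1 → NatRange s θ) : Growth s a := by
  refine dirB Z Z_cont Z_nonneg Z_lip hs ha fun θ hθ hθa => ?_
  obtain ⟨k₀, hk₀⟩ := h θ hθ hθa
  refine ⟨k₀, fun k hk T hT h => hk₀ k hk T hT ?_⟩
  rwa [← Real.log_le_iff_le_exp (by linarith)]

theorem tfae_scale {s a : ℝ} (hs : 1 ≤ s) (ha : 0 ≤ a) :
    List.TFAE [Growth s a,
      ∀ θ : ℝ, 0 < θ → 2 * a * θ < 1 → RealRange s θ,
      ∀ θ : ℝ, 0 < θ → 2 * a * θ < 1 → NatRange s θ] := by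
  tfae_have 1 → 2 := fun h θ h1 h2 => growth_to_real hs ha h θ h1 h2
  tfae_have 2 → 3 := fun h θ h1 h2 => real_to_nat (h θ h1 h2)
  tfae_have 3 → 1 := nat_to_growth hs ha
  tfae_finish

lemma lindelof_iff : Lindelof ↔ Growth 1 0 := by
  constructor
  · intro h ε hε
    have h1 := (h (ε / 2) (by positivity)).bound
    obtain ⟨C, hC⟩ := h1
    have h2 : ∀ᶠ t : ℝ in atTop, C ≤ t ^ (ε / 2) :=
      (tendsto_rpow_atTop (by positivity : 0 < ε / 2)).eventually_ge_atTop C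
    obtain ⟨t₀, ht₀⟩ := eventually_atTop.1 ((hC.and h2).and (eventually_gt_atTop (0:ℝ)))
    refine ⟨t₀, fun t ht => ?_⟩
    obtain ⟨⟨h3, h4⟩, h5⟩ := ht₀ t ht
    have h6 : 0 ≤ t ^ (ε / 2) := Real.rpow_nonneg h5.le _
    rw [Real.norm_of_nonneg h6] at h3
    rw [sub_self, Real.rpow_zero, div_one, zero_add, mul_comm ε, ← Real.rpow_def_of_pos h5]
    calc ‖riemannZeta (1 / 2 + t * I)‖ ≤ C * t ^ (ε / 2) := h3
      _ ≤ t ^ (ε / 2) * t ^ (ε / 2) := by gcongr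
      _ = t ^ ε := by rw [← Real.rpow_add h5]; ring_nf
  · intro h ε hε
    obtain ⟨t₀, ht₀⟩ := h ε hε
    refine Asymptotics.IsBigO.of_bound 1 ?_
    filter_upwards [eventually_ge_atTop t₀, eventually_gt_atTop (0:ℝ)] with t h1 h2
    have h3 := ht₀ t h1
    rw [sub_self, Real.rpow_zero, div_one, zero_add, mul_comm ε, ← Real.rpow_def_of_pos h2] at h3
    rw [one_mul, Real.norm_of_nonneg (Real.rpow_nonneg h2.le _)]
    exact h3

lemma rpow_eq_exp {k : ℝ} (hk : 0 < k) (θ : ℝ) :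
    k ^ (θ * k) = Real.exp (θ * k * Real.log k ^ (1:ℝ)) := by
  rw [Real.rpow_one, Real.rpow_def_of_pos hk, mul_comm]

/-- **Main theorem.** -/
theorem result :
    (∀ θ : ℝ, θ < 3 → ∃ k₀ : ℝ, ∀ k : ℝ, k₀ ≤ k → ∀ T : ℝ, 1000 < T → T ≤ k ^ (θ * k) →
      M k T < T * Real.log T ^ (k ^ 2)) ∧
    (∀ s a : ℝ, 1 ≤ s → 0 ≤ a → List.TFAE [Growth s a,
      ∀ θ : ℝ, 0 < θ → 2 * a * θ < 1 → RealRange s θ,
      ∀ θ : ℝ, 0 < θ → 2 * a * θ < 1 → NatRange s θ]) ∧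
    (Lindelof ↔ ∀ θ : ℝ, ∃ k₀ : ℕ, ∀ k : ℕ, k₀ ≤ k → ∀ T : ℝ, 1000 < T → T ≤ (k : ℝ) ^ (θ * k) →
      M k T ≤ T * Real.log T ^ ((k : ℝ) ^ 2)) ∧
    List.TFAE [
      ∃ A t₀ : ℝ, ∀ t : ℝ, t₀ ≤ t → ‖riemannZeta (1 / 2 + t * I)‖ ≤
        Real.exp (A * √(Real.log t * Real.log (Real.log t))),
      ∃ c k₀ : ℝ, 0 < c ∧ ∀ k : ℝ, k₀ ≤ k → ∀ T : ℝ, 1000 < T →
        T ≤ Real.exp (c * k ^ 2 * Real.log k) → M k T < T * Real.log T ^ (k ^ 2),
      ∃ (c : ℝ) (k₀ : ℕ), 0 < c ∧ ∀ k : ℕ, k₀ ≤ k → ∀ T : ℝ, 1000 < T →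
        T ≤ Real.exp (c * (k : ℝ) ^ 2 * Real.log k) → M k T ≤ T * Real.log T ^ ((k : ℝ) ^ 2)] := by
  refine ⟨?_, fun s a hs ha => tfae_scale hs ha, ?_, ?_⟩
  · intro θ hθ
    obtain ⟨k₀, hk₀⟩ := growth_to_real le_rfl (by norm_num) growth_weyl (max θ 1)
      (lt_max_of_lt_right one_pos) (by
        have : max θ 1 < 3 := max_lt hθ (by norm_num)
        linarith)
    refine ⟨max k₀ 1, fun k hk T hT h => hk₀ k ((le_max_left _ _).trans hk) T hT ?_⟩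
    have hk1 : 1 ≤ k := (le_max_right _ _).trans hk
    have hk0 : 0 < k := by linarith
    rw [← rpow_eq_exp hk0]
    refine h.trans (Real.rpow_le_rpow_of_exponent_le hk1 ?_)
    gcongr
    exact le_max_left _ _
  · have h13 : Growth 1 0 ↔ ∀ θ : ℝ, 0 < θ → 2 * 0 * θ < 1 → NatRange 1 θ :=
      (tfae_scale le_rfl le_rfl).out 0 2
    rw [lindelof_iff, h13]
    constructor
    · intro h θ
      obtain ⟨k₀, hk₀⟩ := h (max θ 1) (lt_max_of_lt_right one_pos) (by simp)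
      refine ⟨max k₀ 1, fun k hk T hT h => hk₀ k ((le_max_left _ _).trans hk) T hT ?_⟩
      have hk1 : (1:ℝ) ≤ k := by exact_mod_cast (le_max_right _ _).trans hk
      have hk0 : (0:ℝ) < k := by linarith
      rw [← rpow_eq_exp hk0]
      refine h.trans (Real.rpow_le_rpow_of_exponent_le hk1 ?_)
      gcongr
      exact le_max_left _ _
    · intro h θ _ _
      obtain ⟨k₀, hk₀⟩ := h θ
      refine ⟨max k₀ 1, fun k hk T hT h => hk₀ k ((le_max_left _ _).trans hk) T hT ?_⟩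
      have hk1 : (1:ℝ) ≤ k := by exact_mod_cast (le_max_right _ _).trans hk
      have hk0 : (0:ℝ) < k := by linarith
      rwa [rpow_eq_exp hk0]
  · tfae_have 1 → 2 := by
      intro h
      obtain ⟨c, k₀, hc, hk₀⟩ := dirA' Z Z_cont Z_nonneg h
      refine ⟨c, k₀, hc, fun k hk T hT h => hk₀ k hk T hT ?_⟩
      rwa [Real.log_le_iff_le_exp (by linarith)]
    tfae_have 2 → 3 := by
      rintro ⟨c, k₀, hc, hk₀⟩
      refine ⟨c, ⌈k₀⌉₊, hc, fun k hk T hT h => (hk₀ k ?_ T hT h).le⟩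
      exact (Nat.le_ceil _).trans (by exact_mod_cast hk)
    tfae_have 3 → 1 := by
      rintro ⟨c, k₀, hc, hk₀⟩
      refine dirB' Z Z_cont Z_nonneg Z_lip ⟨c, k₀, hc, fun k hk T hT h => hk₀ k hk T hT ?_⟩
      rwa [← Real.log_le_iff_le_exp (by linarith)]
    tfae_finish

end Pool.Agent.Results.MP_3d0d30_nt.RangesAndGrowth
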