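import Pool.Agent.TH158.FM.Rng
import Pool.Agent.TH692.FM2.Norm3
import Pool.Agent.TH692.FM2.Range2
import Pool.Agent.R356.RG6
import Pool.Agent.W188.Ray.A4
import Pool.Agent.W22.EH.EX
import Pool.Agent.W903.EH.BK
import Pool.Agent.W347.EH.KT

/-!
# MP_3d0d30_nt: truncated moments, large values, and the orders `k` that matter

`M_k(T) = ∫_0^T |ζ(1/2 + it)|^{2k} dt`, `L = log T`; the pair `(k, T)` is good if
`M_k(T) ≤ T L^{k²}` (the inequality of Q2).

(1) Unconditionally, for all `T ≥ 1000` and `k ≥ 2`, the part of `M_k(T)` with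
`|ζ| ≤ L^{(k+2)/2}` is at most `(4/5) T L^{k²}`, the remaining `t` having measure at most
`(4/5) T L^{-2k}`; the part with `|ζ| ≤ L²` is at most `(4/5) T L^{4k-4}` for all `k ≥ 2`.
(2) Q2 for a given `T` and the Gaussian bound `T L^{-α²}` for the measure of `|ζ| > L^α`.
(3) If `(j, T)` is good and `|ζ| ≤ L^κ` on `[0, T]` then `(k, T)` is good for
`k ≥ max (j, 2κ - j)`. Hence only the orders `k` with `L^k ≤ max |ζ|` matter.
(4) For fixed `T` Q2 follows from finitely many inequalities.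
(5) Orders near `2`.
-/

set_option autoImplicit false

namespace Pool.Agent.Results.MP_3d0d30_nt.ReductionsAndLargeValues

open Complex MeasureTheory Set Filter

/-- `|ζ(1/2 + it)|` -/
noncomputable def Z (t : ℝ) : ℝ := ‖riemannZeta (1 / 2 + t * I)‖

/-- `M_k(T) = ∫_0^T |ζ(1/2 + it)|^{2k} dt` -/
noncomputable def M (k T : ℝ) : ℝ := ∫ t in (0:ℝ)..T, Z t ^ (2 * k)

/-- the inequality of Q2 for the pair `(k, T)` -/
def Good (k T : ℝ) : Prop := M k T ≤ T * Real.log T ^ (k ^ 2)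

/-- the `t ∈ [0, T]` with `|ζ(1/2 + it)| ≤ V` -/
def Small (V T : ℝ) : Set ℝ := {t | t ∈ Icc (0:ℝ) T ∧ Z t ≤ V}

/-- the `t ∈ [0, T]` with `|ζ(1/2 + it)| > V` -/
def Large (V T : ℝ) : Set ℝ := {t | t ∈ Icc (0:ℝ) T ∧ V < Z t}

/-- the Gaussian bound for the measure of the large values -/
def Gauss (T : ℝ) : Prop :=
  ∀ α : ℝ, 2 ≤ α → volume.real (Large (Real.log T ^ α) T) ≤ T * Real.log T ^ (-α ^ 2)

/-- Q2 -/
def Q2 : Prop := ∀ k T : ℝ, 2 ≤ k → 1000 < T → Good k T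

/-! ### the zeta function on the critical line -/

lemma Z_cont : Continuous Z := by
  unfold Z
  refine Continuous.norm (continuous_iff_continuousAt.2 fun t => ?_)
  have h : (1 / 2 + (t : ℂ) * I) ≠ 1 := by
    intro h
    have := congrArg Complex.re h
    simp at this
  exact ContinuousAt.comp (f := fun t : ℝ => (1 / 2 + (t : ℂ) * I)) (g := riemannZeta)
    (differentiableAt_riemannZeta h).continuousAt (by fun_prop)

lemma Z_nonneg (t : ℝ) : 0 ≤ Z t := norm_nonneg _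

lemma Z_eq (t : ℝ) : ‖riemannZeta (Pool.Agent.TH158.FM.pt (1 / 2) t)‖ = Z t := by
  rw [Pool.Agent.TH158.FM.pt_half]
  rfl

lemma M_eq (k T : ℝ) : M k T = Pool.Agent.TH158.FM.MM k T := by
  unfold M Pool.Agent.TH158.FM.MM
  congr 1
  funext t
  rw [Z_eq]

lemma hN : Pool.Agent.TH158.FM.S_NORM2 := Pool.Agent.TH692.FM2.norm2_all
  (Pool.Agent.TH615.J4553.hil_all Pool.Agent.TH158.FM.hil0_all)
  (Pool.Agent.TH158.FM.lap_all Pool.Agent.TH360.J4554.div_all)

lemma four (T : ℝ) : ∫ t in (0:ℝ)..T, Z t ^ (4:ℝ) =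
    ∫ t in (0:ℝ)..T, ‖riemannZeta (Pool.Agent.TH158.FM.pt (1 / 2) t)‖ ^ 4 := by
  congr 1
  funext t
  rw [Z_eq, ← Real.rpow_natCast]
  norm_num

/-- the fourth moment, `T ≥ 1000` -/
lemma fourth (T : ℝ) (hT : 1000 ≤ T) :
    ∫ t in (0:ℝ)..T, Z t ^ (4:ℝ) ≤ 4 / 5 * (T * Real.log T ^ (4:ℝ)) := by
  rw [four]
  have e : Real.log T ^ (4:ℝ) = Real.log T ^ 4 := by norm_cast
  rw [e]
  exact Pool.Agent.TH158.FM.fourth_all T hT

/-- the fourth moment, `T ≥ 10^8` -/
lemma fourth' (T : ℝ) (hT : 10 ^ 8 ≤ T) :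
    ∫ t in (0:ℝ)..T, Z t ^ (4:ℝ) ≤ 4799 / 10000 * (T * Real.log T ^ (4:ℝ)) := by
  rw [four]
  have e : Real.log T ^ (4:ℝ) = Real.log T ^ 4 := by norm_cast
  rw [e]
  exact Pool.Agent.TH158.FM.fourth2_all hN T hT

lemma weyl : ∀ ε : ℝ, 0 < ε → ∃ t₀ : ℝ, 1 ≤ t₀ ∧ ∀ t : ℝ, t₀ ≤ t → Z t ≤ t ^ (1 / 6 + ε) := by
  intro ε hε
  obtain ⟨T0, hT0⟩ := Pool.Agent.W22.EH.ex (Pool.Agent.W903.EH.bk Pool.Agent.W347.EH.kt)
    Pool.Agent.W903.EH.b1 ε hε
  refine ⟨max T0 1, le_max_right _ _, fun t ht => ?_⟩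
  exact (hT0 t ((le_max_left _ _).trans ht)).1

lemma log_ge {T : ℝ} (hT : 1000 ≤ T) : (69:ℝ) / 10 ≤ Real.log T := Pool.Agent.TH158.FM.log_ge hT

lemma loglog_ge {T : ℝ} (hT : 1000 ≤ T) : (19:ℝ) / 10 ≤ Real.log (Real.log T) := by
  refine le_trans ?_ (Real.log_le_log (by norm_num) (log_ge hT))
  exact Pool.Agent.TH158.FM.le_log_of_pow 10 19 (by norm_num) (by norm_num) (by norm_num)
    (by norm_num)

lemma small_range (k T : ℝ) (hk : 2 ≤ k) (hT : 1000 ≤ T) (hT2 : T ≤ 5 * 10 ^ 12) : Good k T := by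
  unfold Good
  rw [M_eq]
  exact (Pool.Agent.TH158.FM.all_small hN Pool.Agent.TH692.FM2.range2_all k T hk hT hT2).le

lemma good_two (T : ℝ) (hT : 1000 ≤ T) : Good 2 T := by
  have h1 := fourth T hT
  have hl : 0 < Real.log T := by linarith [log_ge hT]
  unfold Good M
  have e1 : (2:ℝ) * 2 = 4 := by norm_num
  have e2 : (2:ℝ) ^ 2 = 4 := by norm_num
  rw [e1, e2]
  have hX : 0 ≤ T * Real.log T ^ (4:ℝ) := mul_nonneg (by linarith) (Real.rpow_nonneg hl.le _)
  generalize T * Real.log T ^ (4:ℝ) = X at h1 hX ⊢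
  linarith

/-- the maximum of the zeta function -/
lemma sup_bound {T : ℝ} (hT : 10 ^ 8 ≤ T) :
    ∀ t ∈ Icc (0:ℝ) T, Z t ≤ 4 * (T / (2 * Real.pi)) ^ (1 / 4 : ℝ) + 1 := by
  intro t ht
  have h47 : 47 ≤ Pool.Agent.TH158.FM.VV T := by
    unfold Pool.Agent.TH158.FM.VV
    have h1 : (12:ℝ) ≤ (T / (2 * Real.pi)) ^ (1 / 4 : ℝ) := by
      have h2 : (12 : ℝ) ^ (4 : ℝ) ≤ T / (2 * Real.pi) := by
        have : (12 : ℝ) ^ (4 : ℝ) = 12 ^ 4 := by norm_cast
        rw [this, le_div_iff₀ (by positivity)]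
        have := Real.pi_lt_d2
        nlinarith
      calc (12:ℝ) = ((12 : ℝ) ^ (4 : ℝ)) ^ (1 / 4 : ℝ) := by
            rw [← Real.rpow_mul (by norm_num)]
            norm_num
        _ ≤ _ := by gcongr
    linarith
  have h := Pool.Agent.TH158.FM.sup_le Pool.Agent.TH158.FM.zb_true Pool.Agent.TH158.FM.pw_true
    h47 le_rfl t ht
  rw [Z_eq] at h
  exact h

lemma log_VV {T : ℝ} (hT : 10 ^ 8 ≤ T) :
    Real.log (Pool.Agent.TH158.FM.VV T) ≤ Real.log T / 4 + 1 := by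
  have hT0 : 0 < T := by linarith
  have h0 : 1 ≤ Pool.Agent.TH158.FM.VV T := Pool.Agent.TH158.FM.VV_ge hT0.le
  rw [Real.log_le_iff_le_exp (by linarith), Real.exp_add]
  have e : Real.exp (Real.log T / 4) = T ^ (1 / 4 : ℝ) := by
    rw [Real.rpow_def_of_pos hT0]
    congr 1
    ring
  rw [e]
  have hq : (100:ℝ) ≤ T ^ (1 / 4 : ℝ) := by
    calc (100:ℝ) = ((10:ℝ) ^ (8:ℝ)) ^ (1 / 4 : ℝ) := by
          rw [← Real.rpow_mul (by norm_num)]
          norm_num
      _ ≤ T ^ (1 / 4 : ℝ) := by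
          have : (10:ℝ) ^ (8:ℝ) = 10 ^ 8 := by norm_cast
          rw [this]
          gcongr
  have hp : (158 / 100 : ℝ) ≤ (2 * Real.pi) ^ (1 / 4 : ℝ) := by
    have h1 : (158 / 100 : ℝ) ^ (4:ℝ) ≤ 2 * Real.pi := by
      have : (158 / 100 : ℝ) ^ (4:ℝ) = (158 / 100) ^ 4 := by norm_cast
      rw [this]
      have := Real.pi_gt_d2
      norm_num
      linarith
    calc (158 / 100:ℝ) = ((158 / 100 : ℝ) ^ (4 : ℝ)) ^ (1 / 4 : ℝ) := by
          rw [← Real.rpow_mul (by norm_num)]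
          norm_num
      _ ≤ _ := by gcongr
  unfold Pool.Agent.TH158.FM.VV
  rw [Real.div_rpow hT0.le (by positivity)]
  have h2 : T ^ (1 / 4 : ℝ) / (2 * Real.pi) ^ (1 / 4 : ℝ) ≤ T ^ (1 / 4 : ℝ) / (158 / 100) := by
    gcongr
  have h3 := Real.exp_one_gt_d9
  nlinarith

/-- orders near `2` -/
lemma strip (k T : ℝ) (hk : 2 ≤ k) (hT : 1000 < T) (h : k ≤ 2 + 7 / (5 * Real.log T)) :
    Good k T := by
  rcases le_or_gt T (5 * 10 ^ 12) with h1 | h1
  · exact small_range k T hk hT.le h1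
  have hT8 : (10:ℝ) ^ 8 ≤ T := by linarith
  have hT0 : 0 < T := by linarith
  have hl := log_ge hT.le
  have hl0 : 0 < Real.log T := by linarith
  have hll := loglog_ge hT.le
  unfold Good
  rw [M_eq]
  refine (Pool.Agent.TH158.FM.all_gen hN k T hk hT8).trans ?_
  have hV := log_VV hT8
  have hV1 : 1 ≤ Pool.Agent.TH158.FM.VV T := Pool.Agent.TH158.FM.VV_ge hT0.le
  have hV0 : 0 < Pool.Agent.TH158.FM.VV T := by linarith
  have hd : (k - 2) * Real.log T ≤ 7 / 5 := by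
    have h2 : k - 2 ≤ 7 / (5 * Real.log T) := by linarith
    calc (k - 2) * Real.log T ≤ 7 / (5 * Real.log T) * Real.log T := by gcongr
      _ = 7 / 5 := by field_simp
  have hk0 : 0 ≤ k - 2 := by linarith
  have key : 12 / 25 * Pool.Agent.TH158.FM.VV T ^ (2 * k - 4) ≤ Real.log T ^ (k ^ 2 - 4) := by
    rw [Real.rpow_def_of_pos hV0, Real.rpow_def_of_pos hl0]
    have e : (12 / 25 : ℝ) = Real.exp (Real.log (12 / 25)) := (Real.exp_log (by norm_num)).symm
    rw [e, ← Real.exp_add]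
    apply Real.exp_le_exp.2
    have hc := Pool.Agent.TH158.FM.log_c
    have h3 : Real.log (Pool.Agent.TH158.FM.VV T) * (2 * k - 4) ≤
        (Real.log T / 4 + 1) * (2 * k - 4) :=
      mul_le_mul_of_nonneg_right hV (by linarith)
    have h4 : 4 * (k - 2) * (19 / 10) ≤ Real.log (Real.log T) * (k ^ 2 - 4) := by
      have h5 : 4 * (k - 2) ≤ k ^ 2 - 4 := by nlinarith
      calc 4 * (k - 2) * (19 / 10) ≤ (k ^ 2 - 4) * Real.log (Real.log T) :=
            mul_le_mul h5 hll (by norm_num) (by nlinarith)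
        _ = _ := mul_comm _ _
    have h6 : (Real.log T / 4 + 1) * (2 * k - 4) = (k - 2) * Real.log T / 2 + 2 * (k - 2) := by
      ring
    linarith
  have e4 : Real.log T ^ (k ^ 2) = Real.log T ^ 4 * Real.log T ^ (k ^ 2 - 4) := by
    have : Real.log T ^ 4 = Real.log T ^ (4 : ℝ) := by norm_cast
    rw [this, ← Real.rpow_add hl0]
    congr 1
    ring
  rw [e4]
  have h7 : 0 ≤ Pool.Agent.TH158.FM.VV T ^ (2 * k - 4) := Real.rpow_nonneg hV0.le _
  calc 4799 / 10000 * (T * Real.log T ^ 4 * Pool.Agent.TH158.FM.VV T ^ (2 * k - 4))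
      ≤ 12 / 25 * (T * Real.log T ^ 4 * Pool.Agent.TH158.FM.VV T ^ (2 * k - 4)) :=
        mul_le_mul_of_nonneg_right (by norm_num) (by positivity)
    _ = T * Real.log T ^ 4 * (12 / 25 * Pool.Agent.TH158.FM.VV T ^ (2 * k - 4)) := by ring
    _ ≤ T * Real.log T ^ 4 * Real.log T ^ (k ^ 2 - 4) := by gcongr
    _ = _ := by ring

/-- reflection -/
lemma reflect {T κ j k : ℝ} (hT : 1000 ≤ T) (hW : ∀ t ∈ Icc (0:ℝ) T, Z t ≤ Real.log T ^ κ)
    (hj : 0 ≤ j) (hg : Good j T) (hjk : j ≤ k) (hk : 2 * κ - j ≤ k) : Good k T := by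
  have hl : 1 ≤ Real.log T := by linarith [log_ge hT]
  have hl0 : 0 < Real.log T := by linarith
  have hT0 : 0 ≤ T := by linarith
  have hS : Pool.Agent.R356.RG4.Small Z (Real.log T ^ κ) T = Icc 0 T := by
    ext t
    exact ⟨fun h => h.1, fun h => ⟨h, hW t h⟩⟩
  have h1 := Pool.Agent.R356.RG4.small_int Z_cont Z_nonneg (V := Real.log T ^ κ) (T := T)
    (p := 2 * k) (q := 2 * j) (Real.rpow_nonneg hl0.le _) hT0 (by linarith) (by linarith)
  rw [hS, ← Pool.Agent.R356.RG4.int_eq _ hT0] at h1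
  refine h1.trans ?_
  have h2 : ∫ t in (0:ℝ)..T, Z t ^ (2 * j) ≤ T * Real.log T ^ (j ^ 2) := hg
  calc (Real.log T ^ κ) ^ (2 * k - 2 * j) * ∫ t in (0:ℝ)..T, Z t ^ (2 * j)
      ≤ (Real.log T ^ κ) ^ (2 * k - 2 * j) * (T * Real.log T ^ (j ^ 2)) := by gcongr
    _ = T * Real.log T ^ (κ * (2 * k - 2 * j) + j ^ 2) := by
        rw [← Real.rpow_mul hl0.le, Real.rpow_add hl0]
        ring
    _ ≤ T * Real.log T ^ (k ^ 2) := by
        apply mul_le_mul_of_nonneg_left _ hT0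
        apply Real.rpow_le_rpow_of_exponent_le hl
        nlinarith [mul_nonneg (sub_nonneg.2 hjk) (sub_nonneg.2 hk)]

/-- only the orders `k` with `(log T)^k ≤ W` matter -/
lemma orders {T W : ℝ} (hT : 1000 ≤ T) (hW : ∀ t ∈ Icc (0:ℝ) T, Z t ≤ W) :
    (∀ k : ℝ, 2 ≤ k → Good k T) ↔ ∀ k : ℝ, 2 ≤ k → Real.log T ^ k ≤ W → Good k T := by
  constructor
  · intro h k hk _
    exact h k hk
  · intro h
    exact Pool.Agent.R356.RG4.small_orders Z_cont Z_nonneg (by linarith [log_ge hT])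
      (by linarith) hW (good_two T hT) h

/-- the orders that matter, from Weyl's bound -/
lemma weyl_orders {θ : ℝ} (hθ0 : 0 < θ) (hθ : θ < 6) : ∃ T₀ : ℝ, ∀ T : ℝ, T₀ ≤ T →
    ((∀ k : ℝ, 2 ≤ k → Good k T) ↔
      ∀ k : ℝ, 2 ≤ k → Real.log T ^ (θ * k) ≤ T → Good k T) := by
  have h6 : 1 / 6 < 1 / θ := one_div_lt_one_div_of_lt hθ0 hθ
  set ε := 1 / θ - 1 / 6 with hε
  have hε0 : 0 < ε := by rw [hε]; linarith
  obtain ⟨t₀, ht₀, hw⟩ := weyl ε hε0
  obtain ⟨C, hC⟩ := (isCompact_Icc (a := (0:ℝ)) (b := t₀)).exists_bound_of_continuousOn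
    Z_cont.continuousOn
  have hlim : ∀ᶠ T : ℝ in atTop, C ≤ T ^ (1 / θ) :=
    (tendsto_rpow_atTop (by positivity : 0 < 1 / θ)).eventually_ge_atTop C
  obtain ⟨T₁, hT₁⟩ := eventually_atTop.1 hlim
  refine ⟨max T₁ 1000, fun T hT => ?_⟩
  have hT1 : T₁ ≤ T := (le_max_left _ _).trans hT
  have hT2 : 1000 ≤ T := (le_max_right _ _).trans hT
  have hT0 : 0 < T := by linarith
  have hl0 : 0 < Real.log T := by linarith [log_ge hT2]
  have hW : ∀ t ∈ Icc (0:ℝ) T, Z t ≤ T ^ (1 / θ) := by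
    intro t ht
    rcases le_total t t₀ with h | h
    · have h1 := hC t ⟨ht.1, h⟩
      rw [Real.norm_of_nonneg (Z_nonneg t)] at h1
      exact h1.trans (hT₁ T hT1)
    · have h1 := hw t h
      have e : 1 / 6 + ε = 1 / θ := by rw [hε]; ring
      rw [e] at h1
      refine h1.trans ?_
      exact Real.rpow_le_rpow ht.1 ht.2 (by positivity)
  rw [orders hT2 hW]
  have e : ∀ k : ℝ, Real.log T ^ k ≤ T ^ (1 / θ) ↔ Real.log T ^ (θ * k) ≤ T := by
    intro k
    rw [mul_comm θ k, Real.rpow_mul hl0.le]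
    constructor
    · intro h
      calc (Real.log T ^ k) ^ θ ≤ (T ^ (1 / θ)) ^ θ := by gcongr
        _ = T := by
          rw [← Real.rpow_mul hT0.le, one_div_mul_cancel hθ0.ne', Real.rpow_one]
    · intro h
      calc Real.log T ^ k = ((Real.log T ^ k) ^ θ) ^ (1 / θ) := by
            rw [← Real.rpow_mul (Real.rpow_nonneg hl0.le _), mul_one_div_cancel hθ0.ne',
              Real.rpow_one]
        _ ≤ T ^ (1 / θ) := by gcongr
  constructor
  · intro h k hk h1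
    exact h k hk ((e k).2 h1)
  · intro h k hk h1
    exact h k hk ((e k).1 h1)

/-- The pair `(k, T)` is good if `M_k(T) ≤ T (log T)^{k²}`. -/
theorem result :
    -- truncated moments
    (∀ T : ℝ, 1000 ≤ T → ∀ k : ℝ, 2 ≤ k →
      ∫ t in Small (Real.log T ^ ((k + 2) / 2)) T, Z t ^ (2 * k) ≤
        4 / 5 * (T * Real.log T ^ (k ^ 2)) ∧
      volume.real (Large (Real.log T ^ ((k + 2) / 2)) T) ≤
        4 / 5 * (T * Real.log T ^ (-(2 * k))) ∧
      ∫ t in Small (Real.log T ^ (2:ℝ)) T, Z t ^ (2 * k) ≤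
        4 / 5 * (T * Real.log T ^ (4 * k - 4))) ∧
    -- Q2 for a given `T` and the measure of the large values
    (∀ T : ℝ, 1000 ≤ T →
      ((∀ k : ℝ, 2 ≤ k → Good k T) → Gauss T) ∧
      (Gauss T → ∀ k : ℝ, 2 ≤ k → M k T ≤
        (9 / 5 + 2 * k * Real.sqrt (Real.pi * Real.log (Real.log T))) *
          (T * Real.log T ^ (k ^ 2)))) ∧
    -- reflection, and the orders that matter
    (∀ T : ℝ, 1000 ≤ T → ∀ κ j : ℝ, (∀ t ∈ Icc (0:ℝ) T, Z t ≤ Real.log T ^ κ) → 0 ≤ j →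
      Good j T → ∀ k : ℝ, j ≤ k → 2 * κ - j ≤ k → Good k T) ∧
    (∀ T : ℝ, 1000 ≤ T → ∀ W : ℝ, (∀ t ∈ Icc (0:ℝ) T, Z t ≤ W) →
      ((∀ k : ℝ, 2 ≤ k → Good k T) ↔ ∀ k : ℝ, 2 ≤ k → Real.log T ^ k ≤ W → Good k T)) ∧
    (∀ θ : ℝ, 0 < θ → θ < 6 → ∃ T₀ : ℝ, ∀ T : ℝ, T₀ ≤ T →
      ((∀ k : ℝ, 2 ≤ k → Good k T) ↔
        ∀ k : ℝ, 2 ≤ k → Real.log T ^ (θ * k) ≤ T → Good k T)) ∧
    (Q2 ↔ ∀ k T : ℝ, 2 + 7 / (5 * Real.log T) < k → 5 * 10 ^ 12 < T →
      Real.log T ^ k ≤ 4 * (T / (2 * Real.pi)) ^ (1 / 4 : ℝ) + 1 → Good k T) ∧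
    -- for a given `T` finitely many orders suffice
    (∀ T : ℝ, 10 ^ 8 ≤ T → ∀ W Δ : ℝ, (∀ t ∈ Icc (0:ℝ) T, Z t ≤ W) → 0 < Δ →
      Δ ^ 2 * Real.log (Real.log T) ≤ 1 →
      (∀ n : ℕ, 1 ≤ n → Real.log T ^ (2 + n * Δ) ≤ W * Real.log T ^ Δ →
        M (2 + n * Δ) T ≤ 7 / 9 * (T * Real.log T ^ ((2 + n * Δ) ^ 2))) →
      ∀ k : ℝ, 2 ≤ k → Good k T) ∧
    -- orders near `2`
    (∀ k T : ℝ, 2 ≤ k → 1000 < T → k ≤ 2 + 7 / (5 * Real.log T) → Good k T) ∧
    (∀ T j k : ℝ, 10 ^ 8 ≤ T → Good j T → 2 ≤ k → k ≤ j →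
      (k - 2) * (j - 2) * Real.log (Real.log T) ≤ 11 / 15 → Good k T) := by
  have hlarge : ∀ V T : ℝ, Large V T = Pool.Agent.R356.RG4.Large Z V T := fun _ _ => rfl
  have hsmall : ∀ V T : ℝ, Small V T = Pool.Agent.R356.RG4.Small Z V T := fun _ _ => rfl
  -- truncated moments at the level `L^a`
  have trunc : ∀ T a k : ℝ, 1000 ≤ T → 2 ≤ k →
      ∫ t in Small (Real.log T ^ a) T, Z t ^ (2 * k) ≤
        4 / 5 * (T * Real.log T ^ (a * (2 * k - 4) + 4)) := by
    intro T a k hT hk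
    have hl0 : 0 < Real.log T := by linarith [log_ge hT]
    have h1 := Pool.Agent.R356.RG4.small_int Z_cont Z_nonneg (V := Real.log T ^ a) (T := T)
      (p := 2 * k) (q := 4) (Real.rpow_nonneg hl0.le _) (by linarith) (by norm_num) (by linarith)
    rw [hsmall]
    refine h1.trans ?_
    calc (Real.log T ^ a) ^ (2 * k - 4) * ∫ t in (0:ℝ)..T, Z t ^ (4:ℝ)
        ≤ (Real.log T ^ a) ^ (2 * k - 4) * (4 / 5 * (T * Real.log T ^ (4:ℝ))) := by
          gcongr
          exact fourth T hT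
      _ = 4 / 5 * (T * (Real.log T ^ (a * (2 * k - 4)) * Real.log T ^ (4:ℝ))) := by
          rw [← Real.rpow_mul hl0.le]
          ring
      _ = _ := by rw [← Real.rpow_add hl0]
  refine ⟨?_, ?_, ?_, ?_, ?_, ?_, ?_, strip, ?_⟩
  · intro T hT k hk
    have hl0 : 0 < Real.log T := by linarith [log_ge hT]
    refine ⟨?_, ?_, ?_⟩
    · refine (trunc T _ k hT hk).trans (le_of_eq ?_)
      congr 3
      ring
    · have h1 := Pool.Agent.R356.RG4.large_vol Z_cont Z_nonneg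
        (V := Real.log T ^ ((k + 2) / 2)) (T := T) (p := 4)
        (Real.rpow_nonneg hl0.le _) (by linarith) (by norm_num)
      rw [← Real.rpow_mul hl0.le] at h1
      have h2 := h1.trans (fourth T hT)
      rw [hlarge]
      have e : (k + 2) / 2 * 4 = 2 * k + 4 := by ring
      rw [e] at h2
      have h3 : 0 < Real.log T ^ (2 * k + 4) := Real.rpow_pos_of_pos hl0 _
      rw [← le_div_iff₀' h3] at h2
      refine h2.trans (le_of_eq ?_)
      have e2 : Real.log T ^ (4:ℝ) = Real.log T ^ (-(2 * k)) * Real.log T ^ (2 * k + 4) := by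
        rw [← Real.rpow_add hl0]
        congr 1
        ring
      rw [e2]
      field_simp
    · refine (trunc T _ k hT hk).trans (le_of_eq ?_)
      congr 3
      ring
  · intro T hT
    have hl := log_ge hT
    have hl0 : 0 < Real.log T := by linarith
    refine ⟨?_, ?_⟩
    · intro h α hα
      have h1 := Pool.Agent.R356.RG4.large_vol Z_cont Z_nonneg
        (V := Real.log T ^ α) (T := T) (p := 2 * α)
        (Real.rpow_nonneg hl0.le _) (by linarith) (by linarith)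
      rw [← Real.rpow_mul hl0.le] at h1
      have h2 := h1.trans (h α hα)
      rw [hlarge]
      have h3 : 0 < Real.log T ^ (α * (2 * α)) := Real.rpow_pos_of_pos hl0 _
      rw [← le_div_iff₀' h3] at h2
      refine h2.trans (le_of_eq ?_)
      have e2 : Real.log T ^ (α ^ 2) = Real.log T ^ (-α ^ 2) * Real.log T ^ (α * (2 * α)) := by
        rw [← Real.rpow_add hl0]
        congr 1
        ring
      rw [e2]
      field_simp
    · intro hG k hk
      have h1 := Pool.Agent.R356.RG4.large_int Z_cont Z_nonneg (L := Real.log T) (T := T) (k := k)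
        (by linarith) (by linarith) (by linarith) hG
      have h2 := trunc T 2 k hT hk
      have e : (2:ℝ) * (2 * k - 4) + 4 = 4 * k - 4 := by ring
      rw [e] at h2
      have h3 : T * Real.log T ^ (4 * k - 4) ≤ T * Real.log T ^ (k ^ 2) := by
        apply mul_le_mul_of_nonneg_left _ (by linarith)
        apply Real.rpow_le_rpow_of_exponent_le (by linarith)
        nlinarith [sq_nonneg (k - 2)]
      have h4 := Pool.Agent.R356.RG4.split Z_cont (Real.log T ^ (2:ℝ)) (T := T) (p := 2 * k)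
        (by linarith) (by linarith)
      rw [hsmall] at h2
      unfold M
      rw [h4]
      linarith
  · intro T hT κ j hW hj hg k hjk hk
    exact reflect hT hW hj hg hjk hk
  · intro T hT W hW
    exact orders hT hW
  · intro θ h1 h2
    exact weyl_orders h1 h2
  · constructor
    · intro h k T hk hT _
      have hl : 0 < Real.log T := by linarith [log_ge (by linarith : (1000:ℝ) ≤ T)]
      have : 0 < 7 / (5 * Real.log T) := by positivity
      exact h k T (by linarith) (by linarith)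
    · intro h k T hk hT
      rcases le_or_gt T (5 * 10 ^ 12) with h1 | h1
      · exact small_range k T hk hT.le h1
      · have h2 := orders hT.le (sup_bound (by linarith : (10:ℝ) ^ 8 ≤ T))
        refine h2.2 (fun k' hk' h3 => ?_) k hk
        rcases le_or_gt k' (2 + 7 / (5 * Real.log T)) with h4 | h4
        · exact strip k' T hk' hT h4
        · exact h k' T h4 h1 h3
  · intro T hT W Δ hW hΔ hΔL h
    have hl := log_ge (by linarith : (1000:ℝ) ≤ T)
    have hl0 : 0 < Real.log T := by linarith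
    refine Pool.Agent.R356.RG4.finite_orders Z_cont Z_nonneg (by linarith) (by linarith) hW hΔ
      hΔL ?_ h
    have h1 := fourth' T hT
    have e1 : (2:ℝ) * 2 = 4 := by norm_num
    have e2 : (2:ℝ) ^ 2 = 4 := by norm_num
    rw [e1, e2]
    have hX : 0 ≤ T * Real.log T ^ (4:ℝ) := mul_nonneg (by linarith) (Real.rpow_nonneg hl0.le _)
    generalize T * Real.log T ^ (4:ℝ) = X at h1 hX ⊢
    linarith
  · intro T j k hT hg hk hkj h
    have hl := log_ge (by linarith : (1000:ℝ) ≤ T)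
    have hl0 : 0 < Real.log T := by linarith
    rcases hk.eq_or_lt with h2 | h2
    · rw [← h2]
      exact good_two T (by linarith)
    have h1 := fourth' T hT
    refine Pool.Agent.R356.RG4.near Z_cont Z_nonneg (L := Real.log T) (c := 12 / 25) (i := 2)
      (j := j) (by linarith) (by linarith) (by norm_num) (by norm_num) (by linarith) hk hkj ?_ hg
      (h.trans Pool.Agent.TH158.FM.log_c)
    have e1 : (2:ℝ) * 2 = 4 := by norm_num
    have e2 : (2:ℝ) ^ 2 = 4 := by norm_num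
    rw [e1, e2]
    have hX : 0 ≤ T * Real.log T ^ (4:ℝ) := mul_nonneg (by linarith) (Real.rpow_nonneg hl0.le _)
    generalize T * Real.log T ^ (4:ℝ) = X at h1 hX ⊢
    linarith

end Pool.Agent.Results.MP_3d0d30_nt.ReductionsAndLargeValues
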